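import Mathlib
import Pool.Agent.Y733.LS.Cnt
import Pool.Agent.Y733.LS.Bad

/-!
# Rational points of the line and elements of number fields near to them
-/

set_option autoImplicit false

namespace Pool.Agent.Y733.VH

open NumberField IsDedekindDomain Finset Pool.Agent.H691R3 Pool.Agent.W223.AK Pool.Agent.W52.AK
open Pool.Agent.Y733.UD Pool.Agent.Y733.LS
open Pool.Agent.W222.UABC (cS_empty)

section One

variable {K : Type} [Field K] [NumberField K]

/-- the linear form of a rational number -/
def lf (a : ℚ) (x : K) : K := (a.num : K) - x * ((a.den : ℤ) : K)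

/-- `x` and `a` have the same reduction at `v` -/
def nr (a : ℚ) (x : K) (v : Pr K) : Prop := fv v (lf a x) < max (fv v x) 1

/-- the determinant of two rational numbers -/
def dt (a b : ℚ) : ℤ := a.num * b.den - b.num * a.den

theorem dt_ne {a b : ℚ} (h : a ≠ b) : dt a b ≠ 0 := by
  intro h0
  apply h
  unfold dt at h0
  rw [← Rat.num_div_den a, ← Rat.num_div_den b]
  have ha : ((a.den : ℤ) : ℚ) ≠ 0 := by exact_mod_cast a.den_nz
  have hb : ((b.den : ℤ) : ℚ) ≠ 0 := by exact_mod_cast b.den_nz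
  have h1 : ((a.num * b.den : ℤ) : ℚ) = ((b.num * a.den : ℤ) : ℚ) := by
    exact_mod_cast sub_eq_zero.1 h0
  push_cast at h1 ha hb
  rw [div_eq_div_iff ha hb]
  exact h1

theorem lf_ne {a : ℚ} {x : K} (h : x ≠ (a : K)) : lf a x ≠ 0 := by
  intro h0
  apply h
  unfold lf at h0
  have h11 : ((a : ℚ) : K) = ((a.num : ℤ) : K) / ((a.den : ℤ) : K) := by
    have := Rat.cast_def (K := K) a
    push_cast
    exact this
  have h12 : ((a.den : ℤ) : K) ≠ 0 := by exact_mod_cast a.den_nz
  rw [h11, eq_div_iff h12]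
  exact (sub_eq_zero.1 h0).symm

theorem fv_int (v : Pr K) (n : ℤ) : fv v (n : K) ≤ 1 := by
  obtain ⟨k, rfl | rfl⟩ := n.eq_nat_or_neg
  · rw [Int.cast_natCast]
    exact (fv_Na v).nat _
  · rw [Int.cast_neg, Int.cast_natCast, map_neg_eq_map]
    exact (fv_Na v).nat _

theorem lf_le (v : Pr K) (a : ℚ) (x : K) : fv v (lf a x) ≤ max (fv v x) 1 := by
  unfold lf
  have h1 := fv_int v a.num
  have h2 := fv_int v (a.den : ℤ)
  refine (fv_Na v).le_sub (h1.trans (le_max_right _ _)) ?_
  rw [map_mul]
  refine le_trans ?_ (le_max_left _ _)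
  exact mul_le_of_le_one_right ((fv v).nonneg _) h2

theorem dt_le (v : Pr K) (a b : ℚ) (x : K) :
    fv v (dt a b : K) * max (fv v x) 1 ≤ max (fv v (lf a x)) (fv v (lf b x)) := by
  have e1 : ((dt a b : ℤ) : K) = lf a x * ((b.den : ℤ) : K) - lf b x * ((a.den : ℤ) : K) := by
    unfold dt lf
    push_cast
    ring
  have e2 : ((dt a b : ℤ) : K) * x = lf a x * (b.num : K) - lf b x * (a.num : K) := by
    unfold dt lf
    push_cast
    ring
  have key : ∀ (y z : K), fv v y ≤ 1 → fv v z ≤ 1 →
      fv v (lf a x * y - lf b x * z) ≤ max (fv v (lf a x)) (fv v (lf b x)) := by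
    intro y z hy hz
    refine (fv_Na v).le_sub ?_ ?_
    · rw [map_mul]
      exact (mul_le_of_le_one_right ((fv v).nonneg _) hy).trans (le_max_left _ _)
    · rw [map_mul]
      exact (mul_le_of_le_one_right ((fv v).nonneg _) hz).trans (le_max_right _ _)
  rw [mul_max_of_nonneg _ _ ((fv v).nonneg _), mul_one]
  apply max_le
  · rw [← map_mul, e2]
    exact key _ _ (fv_int v _) (fv_int v _)
  · rw [e1]
    exact key _ _ (fv_int v _) (fv_int v _)

theorem max_eq (v : Pr K) {a b : ℚ} (h : fv v (dt a b : K) = 1) (x : K) :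
    max (fv v (lf a x)) (fv v (lf b x)) = max (fv v x) 1 := by
  apply le_antisymm
  · exact max_le (lf_le v a x) (lf_le v b x)
  · have := dt_le v a b x
    rwa [h, one_mul] at this

theorem not_both (v : Pr K) {a b : ℚ} (h : fv v (dt a b : K) = 1) {x : K} (h1 : nr a x v)
    (h2 : nr b x v) : False := by
  have h3 := max_eq v h x
  have h4 := max_lt h1 h2
  linarith

/-- the quotient of the two forms -/
noncomputable def mob (a b : ℚ) (x : K) : K := lf a x / lf b x

theorem mob_inj {a b : ℚ} (hab : a ≠ b) {x y : K} (hx : x ≠ (b : K)) (hy : y ≠ (b : K))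
    (h : mob a b x = mob a b y) : x = y := by
  unfold mob at h
  rw [div_eq_div_iff (lf_ne hx) (lf_ne hy)] at h
  have hd : ((dt a b : ℤ) : K) ≠ 0 := Int.cast_ne_zero.2 (dt_ne hab)
  have e : ((dt a b : ℤ) : K) * (x - y) = lf a x * lf b y - lf a y * lf b x := by
    unfold dt lf
    push_cast
    ring
  have h1 : ((dt a b : ℤ) : K) * (x - y) = 0 := by
    rw [e, h]
    ring
  exact sub_eq_zero.1 ((mul_eq_zero.1 h1).resolve_left hd)

/-- the archimedean constant -/
noncomputable def ac (a b : ℚ) : ℝ :=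
  |(a.num : ℝ)| + (a.den : ℝ) + |(b.num : ℝ)| + (b.den : ℝ)

theorem one_le_ac (a b : ℚ) : 1 ≤ ac a b := by
  unfold ac
  have h1 : (1 : ℝ) ≤ a.den := by exact_mod_cast a.den_pos
  have := abs_nonneg (a.num : ℝ)
  have := abs_nonneg (b.num : ℝ)
  have : (0 : ℝ) ≤ b.den := Nat.cast_nonneg _
  linarith

theorem inf_int (w : InfinitePlace K) (n : ℤ) : w.1 (n : K) = |(n : ℝ)| := by
  obtain ⟨k, rfl | rfl⟩ := n.eq_nat_or_neg
  · rw [Int.cast_natCast, Int.cast_natCast, inf_nat]
    exact (abs_of_nonneg (Nat.cast_nonneg _)).symm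
  · rw [Int.cast_neg, Int.cast_neg, Int.cast_natCast, Int.cast_natCast, map_neg_eq_map, inf_nat,
      abs_neg]
    exact (abs_of_nonneg (Nat.cast_nonneg _)).symm

theorem lf_arch (w : InfinitePlace K) (a : ℚ) (x : K) :
    w.1 (lf a x) ≤ (|(a.num : ℝ)| + a.den) * max (w.1 x) 1 := by
  unfold lf
  have h1 : w.1 ((a.num : K) - x * ((a.den : ℤ) : K)) ≤
      w.1 (a.num : K) + w.1 (x * ((a.den : ℤ) : K)) := by
    rw [sub_eq_add_neg]
    refine (w.1.add_le _ _).trans ?_
    rw [map_neg_eq_map]
  rw [map_mul, inf_int, inf_int] at h1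
  have h2 : |(((a.den : ℤ)) : ℝ)| = (a.den : ℝ) := by
    push_cast
    exact abs_of_nonneg (Nat.cast_nonneg _)
  rw [h2] at h1
  have h3 := le_max_left (w.1 x) 1
  have h4 := le_max_right (w.1 x) 1
  have h5 := abs_nonneg (a.num : ℝ)
  have h6 : (0 : ℝ) ≤ a.den := Nat.cast_nonneg _
  nlinarith

theorem mob_ht {a b : ℚ} {x : K} (hb : x ≠ (b : K)) :
    ht (mob a b x) ≤ ht x + Module.finrank ℚ K * Real.log (ac a b) := by
  classical
  have hl := lf_ne hb
  have hs1 := Fs_ht (mob a b x)
  have hs2 := Fs_log hl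
  have hs3 := Fs_ht x
  have hz : (Function.support fun _ : Pr K => (0 : ℝ)).Finite := by simp
  have e1 : ht (mob a b x) = Sa (fun w => Real.log (max (w (mob a b x)) 1)) +
      Sa (fun w => Real.log (w (lf b x))) := by
    rw [Sa_log hl, add_zero, ht_eq_Sa]
  have hac : 0 ≤ Real.log (ac a b) := Real.log_nonneg (one_le_ac a b)
  have e2 : ht x + Module.finrank ℚ K * Real.log (ac a b) =
      Sm (fun w : InfinitePlace K => Real.log (max (w.1 x) 1) + Real.log (ac a b))
        (fun v : Pr K => Real.log (max (fv v x) 1) + 0) := by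
    rw [Sm_add hs3 hz, Sm_const, ht_eq_Sa]
    rfl
  rw [e1, e2]
  unfold Sa
  rw [← Sm_add hs1 hs2]
  have key : ∀ w : AbsoluteValue K ℝ, Real.log (max (w (mob a b x)) 1) + Real.log (w (lf b x)) =
      Real.log (max (w (lf a x)) (w (lf b x))) := by
    intro w
    have h1 : 0 < w (lf b x) := w.pos hl
    rw [← Real.log_mul (lt_max_of_lt_right one_pos).ne' h1.ne', mul_comm,
      mul_max_of_nonneg _ _ h1.le, mul_one, ← map_mul]
    congr 3
    unfold mob
    field_simp
  have hpos : ∀ w : AbsoluteValue K ℝ, 0 < max (w (lf a x)) (w (lf b x)) :=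
    fun w => lt_max_of_lt_right (w.pos hl)
  apply Sm_mono (supp_add hs1 hs2) (supp_add hs3 hz)
  · intro w
    rw [key]
    have h1 : 0 < max (w.1 x) 1 := lt_max_of_lt_right one_pos
    rw [← Real.log_mul h1.ne' (by linarith [one_le_ac a b])]
    apply Real.log_le_log (hpos _)
    have h2 := lf_arch w a x
    have h3 := lf_arch w b x
    have h5 := abs_nonneg (a.num : ℝ)
    have h6 : (0 : ℝ) ≤ a.den := Nat.cast_nonneg _
    have h7 := abs_nonneg (b.num : ℝ)
    have h8 : (0 : ℝ) ≤ b.den := Nat.cast_nonneg _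
    unfold ac
    apply max_le
    · refine h2.trans ?_
      rw [mul_comm]
      exact mul_le_mul_of_nonneg_left (by linarith) h1.le
    · refine h3.trans ?_
      rw [mul_comm]
      exact mul_le_mul_of_nonneg_left (by linarith) h1.le
  · intro v
    rw [key, add_zero]
    exact Real.log_le_log (hpos _) (max_le (lf_le v a x) (lf_le v b x))

/-- the radicals of numerator and denominator of the quotient -/
theorem rl_le_near {a b : ℚ} {m : ℕ} (hm : m ≠ 0)
    (hmd : ∀ v : Pr K, fv v (m : K) = 1 → fv v (dt a b : K) = 1) {x : K} (hb : x ≠ (b : K))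
    {P : Fin 3 → Idl K} (hP : IsP ∅ (mob a b x) P) (V : Finset (Pr K))
    (hV : ∀ v, fv v (m : K) = 1 → (nr a x v ∨ nr b x v) → v ∈ V) [DecidablePred fun v => nr a x v]
    [DecidablePred fun v => nr b x v] :
    rl (P 0) ≤ ∑ v ∈ V.filter (fun v => nr a x v), Real.log (Nv v) +
        Module.finrank ℚ K * Real.log m ∧
    rl (P 1) ≤ ∑ v ∈ V.filter (fun v => nr b x v), Real.log (Nv v) +
        Module.finrank ℚ K * Real.log m := by
  classical
  have hl := lf_ne hb
  have hden : ∀ v, max (fv v (mob a b x)) 1 = (Nv v) ^ (P 1 v) := by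
    intro v
    have h1 := hP.val 1 v (by simp)
    rw [show L 1 (mob a b x) = 1 from rfl, map_one] at h1
    have h2 := Nv_pos v
    rw [zpow_neg, zpow_natCast] at h1
    have h3 : (Nv v) ^ (P 1 v) ≠ 0 := by positivity
    field_simp at h1
    exact h1.symm
  have hnum : ∀ v, fv v (mob a b x) = max (fv v (mob a b x)) 1 * (Nv v) ^ (-(P 0 v : ℤ)) := by
    intro v
    exact hP.val 0 v (by simp)
  have hq : ∀ v, fv v (mob a b x) = fv v (lf a x) / fv v (lf b x) := by
    intro v
    unfold mob
    rw [map_div₀]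
  have gen : ∀ (s : Finset (Pr K)) (p : Pr K → Prop) [DecidablePred p],
      (∀ v ∈ s, fv v (m : K) = 1 → v ∈ V ∧ p v) →
      ∑ v ∈ s, Real.log (Nv v) ≤ ∑ v ∈ V.filter p, Real.log (Nv v) +
        Module.finrank ℚ K * Real.log m := by
    intro s p _ h
    rw [← Finset.sum_filter_add_sum_filter_not s (fun v => fv v (m : K) = 1)]
    apply add_le_add
    · refine Finset.sum_le_sum_of_subset_of_nonneg ?_ (fun v _ _ => (log_Nv_pos v).le)
      intro v hv
      obtain ⟨h1, h2⟩ := Finset.mem_filter.1 hv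
      exact Finset.mem_filter.2 (h v h1 h2)
    · exact sum_dvd hm _ fun v hv => (Finset.mem_filter.1 hv).2
  constructor
  · unfold rl
    refine gen _ (fun v => nr a x v) fun v hv h1 => ?_
    have h2 : nr a x v := by
      rw [Finsupp.mem_support_iff] at hv
      have h3 : fv v (mob a b x) < max (fv v (mob a b x)) 1 := by
        have h5 : 0 < max (fv v (mob a b x)) 1 := lt_max_of_lt_right one_pos
        have h6 : (Nv v) ^ (-(P 0 v : ℤ)) < 1 := by
          rw [zpow_neg, zpow_natCast]
          exact inv_lt_one_of_one_lt₀ (one_lt_pow₀ (Nv_one_lt v) hv)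
        calc fv v (mob a b x) = max (fv v (mob a b x)) 1 * (Nv v) ^ (-(P 0 v : ℤ)) := hnum v
          _ < max (fv v (mob a b x)) 1 * 1 := mul_lt_mul_of_pos_left h6 h5
          _ = _ := mul_one _
      have h4 : fv v (mob a b x) < 1 := by
        by_contra hcon
        push Not at hcon
        rw [max_eq_left hcon] at h3
        exact lt_irrefl _ h3
      rw [hq, div_lt_one ((fv v).pos hl)] at h4
      have h5 := max_eq v (hmd v h1) x
      rw [max_eq_right h4.le] at h5
      unfold nr
      rw [← h5]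
      exact h4
    exact ⟨hV v h1 (Or.inl h2), h2⟩
  · unfold rl
    refine gen _ (fun v => nr b x v) fun v hv h1 => ?_
    have h2 : nr b x v := by
      rw [Finsupp.mem_support_iff] at hv
      have h3 : 1 < max (fv v (mob a b x)) 1 := by
        rw [hden v]
        exact one_lt_pow₀ (Nv_one_lt v) hv
      have h4 : 1 < fv v (mob a b x) := by
        rcases lt_max_iff.1 h3 with h | h
        · exact h
        · exact absurd h (lt_irrefl _)
      rw [hq, one_lt_div ((fv v).pos hl)] at h4
      have h5 := max_eq v (hmd v h1) x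
      rw [max_eq_left h4.le] at h5
      unfold nr
      rw [← h5]
      exact h4
    exact ⟨hV v h1 (Or.inr h2), h2⟩

end One

end Pool.Agent.Y733.VH
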