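import Mathlib
import Pool.Agent.Y733.VH.Mob

/-!
# Counting the elements with a small truncated counting function, uniformly in all number fields
-/

set_option autoImplicit false

namespace Pool.Agent.Y733.VH

open NumberField IsDedekindDomain Finset Pool.Agent.H691R3 Pool.Agent.W223.AK Pool.Agent.W52.AK
open Pool.Agent.Y733.UD Pool.Agent.Y733.LS

section One

variable {K : Type} [Field K] [NumberField K]

/-- the primes, prime to `m`, where `x` is near to some `a j` -/
def nearSet (m : ℕ) {q : ℕ} (a : Fin q → ℚ) (x : K) : Set (Pr K) :=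
  {v | fv v (m : K) = 1 ∧ ∃ j, nr (a j) x v}

theorem nearSet_finite (m : ℕ) {q : ℕ} {a : Fin q → ℚ} {x : K} (hx : ∀ j, x ≠ (a j : K)) :
    (nearSet m a x).Finite := by
  have h1 : nearSet m a x ⊆ ⋃ j, {v : Pr K | fv v (lf (a j) x) ≠ 1 ∨ 1 < fv v x} := by
    rintro v ⟨-, j, hj⟩
    refine Set.mem_iUnion.2 ⟨j, ?_⟩
    by_cases h : 1 < fv v x
    · exact Or.inr h
    · left
      unfold nr at hj
      rw [max_eq_right (not_lt.1 h)] at hj
      exact hj.ne
  refine (Set.finite_iUnion fun j => ?_).subset h1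
  have h2 : {v : Pr K | fv v (lf (a j) x) ≠ 1 ∨ 1 < fv v x} =
      {v | fv v (lf (a j) x) ≠ 1} ∪ {v | 1 < fv v x} := rfl
  rw [h2]
  refine (fv_support_finite (lf_ne (hx j))).union ?_
  refine (Fs_ht x).subset fun v hv => ?_
  have hv' : 1 < fv v x := hv
  show Real.log (max (fv v x) 1) ≠ 0
  rw [max_eq_left hv'.le]
  exact (Real.log_pos hv').ne'

open Classical in
/-- the contribution of one rational number -/
noncomputable def RR (V : Finset (Pr K)) (a : ℚ) (x : K) : ℝ :=
  ∑ v ∈ V.filter (fun v => nr a x v), Real.log (Nv v)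

open Classical in
/-- the truncated counting function -/
noncomputable def cn (m : ℕ) {q : ℕ} (a : Fin q → ℚ) (x : K) : ℝ :=
  ∑ᶠ v : Pr K, if v ∈ nearSet m a x then Real.log (Nv v) else 0

theorem cn_eq (m : ℕ) {q : ℕ} {a : Fin q → ℚ} {x : K} (hx : ∀ j, x ≠ (a j : K)) :
    cn m a x = ∑ v ∈ (nearSet_finite m hx).toFinset, Real.log (Nv v) := by
  classical
  unfold cn
  rw [finsum_eq_sum_of_support_subset (s := (nearSet_finite m hx).toFinset)]
  · refine Finset.sum_congr rfl fun v hv => ?_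
    rw [if_pos ((Set.Finite.mem_toFinset _).1 hv)]
  · intro v hv
    rw [Function.mem_support] at hv
    rw [Finset.mem_coe, Set.Finite.mem_toFinset]
    by_contra hcon
    exact hv (if_neg hcon)

theorem fv_dvd (v : Pr K) {k m : ℕ} (h : k ∣ m) (hm : fv v (m : K) = 1) : fv v (k : K) = 1 := by
  obtain ⟨l, rfl⟩ := h
  rw [Nat.cast_mul, map_mul] at hm
  have h1 := (fv_Na v).nat k
  have h2 := (fv_Na v).nat l
  have h3 := (fv v).nonneg (k : K)
  have h4 := (fv v).nonneg (l : K)
  nlinarith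

theorem nearSet_mono {k m : ℕ} (h : k ∣ m) {q : ℕ} (a : Fin q → ℚ) (x : K) :
    nearSet m a x ⊆ nearSet k a x := fun v hv => ⟨fv_dvd v h hv.1, hv.2⟩

theorem cn_mono {k m : ℕ} (h : k ∣ m) {q : ℕ} {a : Fin q → ℚ} {x : K} (hx : ∀ j, x ≠ (a j : K)) :
    cn m a x ≤ cn k a x := by
  rw [cn_eq m hx, cn_eq k hx]
  refine Finset.sum_le_sum_of_subset_of_nonneg ?_ (fun v _ _ => (log_Nv_pos v).le)
  intro v hv
  rw [Set.Finite.mem_toFinset] at hv ⊢
  exact nearSet_mono h a x hv

theorem cn_nonneg (m : ℕ) {q : ℕ} {a : Fin q → ℚ} {x : K} (hx : ∀ j, x ≠ (a j : K)) :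
    0 ≤ cn m a x := by
  rw [cn_eq m hx]
  exact Finset.sum_nonneg fun v _ => (log_Nv_pos v).le

end One

/-- two of the numbers are small -/
theorem two_small {q : ℕ} (hq : 2 ≤ q) (R : Fin q → ℝ) : ∃ i j, i ≠ j ∧
    R i + R j ≤ 2 / q * ∑ l, R l := by
  classical
  have : NeZero q := ⟨by omega⟩
  obtain ⟨i, -, hi⟩ := Finset.exists_min_image (Finset.univ : Finset (Fin q)) R
    Finset.univ_nonempty
  have hne : (Finset.univ.erase i).Nonempty := by
    rw [← Finset.card_pos, Finset.card_erase_of_mem (Finset.mem_univ _), Finset.card_univ,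
      Fintype.card_fin]
    omega
  obtain ⟨j, hj, hj'⟩ := Finset.exists_min_image (Finset.univ.erase i) R hne
  refine ⟨i, j, fun h => (Finset.mem_erase.1 hj).1 h.symm, ?_⟩
  have hq0 : (0 : ℝ) < q := by
    have : 0 < q := by omega
    exact_mod_cast this
  have hq2 : (2 : ℝ) ≤ q := by exact_mod_cast hq
  have h1 : (q : ℝ) * R i ≤ ∑ l, R l := by
    have := Finset.sum_le_sum hi
    rw [Finset.sum_const, Finset.card_univ, Fintype.card_fin, nsmul_eq_mul] at this
    exact this
  have h2 : ((q : ℝ) - 1) * R j ≤ ∑ l, R l - R i := by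
    have := Finset.sum_le_sum hj'
    rw [Finset.sum_const, Finset.card_erase_of_mem (Finset.mem_univ _), Finset.card_univ,
      Fintype.card_fin, nsmul_eq_mul, Nat.cast_sub (by omega), Nat.cast_one] at this
    refine this.trans (le_of_eq ?_)
    rw [← Finset.add_sum_erase _ _ (Finset.mem_univ i)]
    ring
  set S := ∑ l, R l with hS
  have h3 : (q : ℝ) * ((q - 1) * (R i + R j)) ≤ q * ((q - 1) * (2 / q * S)) := by
    have e : (q : ℝ) * ((q - 1) * (2 / q * S)) = (q - 1) * 2 * S := by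
      field_simp
    rw [e]
    have h4 := mul_le_mul_of_nonneg_left h2 hq0.le
    have h5 := mul_le_mul_of_nonneg_left h1 (by linarith : (0 : ℝ) ≤ q - 2)
    nlinarith
  have h4 : (0 : ℝ) < q - 1 := by linarith
  exact le_of_mul_le_mul_left (le_of_mul_le_mul_left h3 hq0) h4

/-- the elements near to two given rational numbers at few primes -/
theorem pair_near {a b : ℚ} (hab : a ≠ b) {m : ℕ} (hm : m ≠ 0)
    (hmd : ∀ (K : Type) [Field K] [NumberField K] (v : Pr K), fv v (m : K) = 1 →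
      fv v (dt a b : K) = 1) {ε : ℝ} (hε : 0 < ε) : ∃ A : ℝ, 0 ≤ A ∧
    ∀ (K : Type) [Field K] [NumberField K] (X Y : ℝ) (E : Finset K) (V : K → Finset (Pr K)),
      0 ≤ X → 0 ≤ Y →
      (∀ x ∈ E, x ≠ (a : K) ∧ x ≠ (b : K) ∧ ht x ≤ X ∧
        (∀ v, fv v (m : K) = 1 → (nr a x v ∨ nr b x v) → v ∈ V x) ∧
        RR (V x) a x + RR (V x) b x ≤ Y) →
        (E.card : ℝ) ≤ Real.exp (Module.finrank ℚ K * A + Y + ε * X) := by
  classical
  obtain ⟨A, hA, h⟩ := class_card hε
  have hl2 : 0 ≤ Real.log 2 := Real.log_nonneg (by norm_num)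
  have hlm : 0 ≤ Real.log m := Real.log_natCast_nonneg m
  have hac : 0 ≤ Real.log (ac a b) := Real.log_nonneg (one_le_ac a b)
  refine ⟨A + 2 * Real.log m + ε * Real.log (ac a b) + Real.log 2, by positivity, ?_⟩
  intro K _ _ X Y E V hX hY hE
  set n := Module.finrank ℚ K with hn
  have hn1 := finrank_one_le K
  set F := (E.image (mob a b)).erase (-1) with hF
  have hinj : Set.InjOn (mob a b) (E : Set K) := by
    intro x hx y hy hxy
    exact mob_inj hab (hE x (Finset.mem_coe.1 hx)).2.1 (hE y (Finset.mem_coe.1 hy)).2.1 hxy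
  have hcard : (E.card : ℝ) ≤ F.card + 1 := by
    have h1 := Finset.pred_card_le_card_erase (s := E.image (mob a b)) (a := (-1 : K))
    rw [Finset.card_image_of_injOn hinj, ← hF] at h1
    exact_mod_cast (by omega : E.card ≤ F.card + 1)
  have hP : ∀ j : K, ∃ P : Fin 3 → Idl K, Pt j → IsP ∅ j P := by
    intro j
    by_cases hj : Pt j
    · obtain ⟨P, hP⟩ := exists_isP ∅ hj
      exact ⟨P, fun _ => hP⟩
    · exact ⟨fun _ => 0, fun h => absurd h hj⟩
  choose P hP using hP
  have h1 := h K (X + n * Real.log (ac a b)) (Y + 2 * (n * Real.log m)) F P 0 1 (by decide) (by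
    intro z hz
    rw [hF, Finset.mem_erase] at hz
    obtain ⟨hz1, hz2⟩ := hz
    obtain ⟨x, hx, rfl⟩ := Finset.mem_image.1 hz2
    obtain ⟨h2, h3, h4, h5, h6⟩ := hE x hx
    have hPt : Pt (mob a b x) := by
      refine ⟨div_ne_zero (lf_ne h2) (lf_ne h3), fun h7 => hz1 ?_⟩
      exact eq_neg_of_add_eq_zero_left h7
    obtain ⟨h7, h8⟩ := rl_le_near hm (hmd K) h3 (hP _ hPt) (V x) h5
    refine ⟨hPt, ?_, hP _ hPt, ?_⟩
    · exact (mob_ht h3).trans (by linarith)
    · unfold RR at h6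
      linarith)
  have h2 : 0 ≤ n * A + (Y + 2 * (n * Real.log m)) + ε * (X + n * Real.log (ac a b)) := by
    positivity
  have h3 := Real.one_le_exp h2
  have h4 : (2 : ℝ) ≤ Real.exp (n * Real.log 2) := by
    have h4 : Real.exp (Real.log 2) = 2 := Real.exp_log (by norm_num)
    calc (2 : ℝ) = Real.exp (Real.log 2) := h4.symm
      _ ≤ _ := Real.exp_le_exp.2 (by nlinarith)
  calc (E.card : ℝ) ≤ 2 * Real.exp (n * A + (Y + 2 * (n * Real.log m)) +
        ε * (X + n * Real.log (ac a b))) := by linarith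
    _ ≤ Real.exp (n * Real.log 2) * Real.exp (n * A + (Y + 2 * (n * Real.log m)) +
        ε * (X + n * Real.log (ac a b))) := mul_le_mul_of_nonneg_right h4 (Real.exp_pos _).le
    _ = _ := by
        rw [← Real.exp_add]
        congr 1
        ring

/-- **elements with a small truncated counting function** -/
theorem count_cn {q : ℕ} (hq : 2 ≤ q) (a : Fin q → ℚ) (ha : Function.Injective a) (m₀ : ℕ)
    (hm₀ : m₀ ≠ 0) {ε : ℝ} (hε : 0 < ε) : ∃ A : ℝ, 0 ≤ A ∧
    ∀ (K : Type) [Field K] [NumberField K] (X Y : ℝ) (E : Finset K),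
      (∀ x ∈ E, (∀ j, x ≠ (a j : K)) ∧ ht x ≤ X ∧ cn m₀ a x ≤ Y) →
        (E.card : ℝ) ≤ Real.exp (Module.finrank ℚ K * A + 2 / q * Y + ε * X) := by
  classical
  set D : ℕ := ∏ t : Fin q × Fin q, (if t.1 = t.2 then 1 else (dt (a t.1) (a t.2)).natAbs) with hD
  have hD0 : D ≠ 0 := by
    rw [hD, Finset.prod_ne_zero_iff]
    intro t _
    split_ifs with h
    · exact one_ne_zero
    · exact Int.natAbs_ne_zero.2 (dt_ne fun h' => h (ha h'))
  set m := m₀ * D with hm
  have hm0 : m ≠ 0 := mul_ne_zero hm₀ hD0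
  have hmd : ∀ i j, i ≠ j → ∀ (K : Type) [Field K] [NumberField K] (v : Pr K),
      fv v (m : K) = 1 → fv v (dt (a i) (a j) : K) = 1 := by
    intro i j hij K _ _ v hv
    have h1 : (dt (a i) (a j)).natAbs ∣ m := by
      refine Dvd.dvd.mul_left ?_ _
      have h2 := Finset.dvd_prod_of_mem
        (fun t : Fin q × Fin q => if t.1 = t.2 then 1 else (dt (a t.1) (a t.2)).natAbs)
        (Finset.mem_univ (i, j))
      simp only [if_neg hij] at h2
      exact h2
    have h2 := fv_dvd v h1 hv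
    rcases Int.natAbs_eq (dt (a i) (a j)) with h | h
    · have e : ((dt (a i) (a j) : ℤ) : K) = (((dt (a i) (a j)).natAbs : ℕ) : K) := by
        conv_lhs => rw [h]
        rw [Int.cast_natCast]
      rw [e]
      exact h2
    · have e : ((dt (a i) (a j) : ℤ) : K) = -(((dt (a i) (a j)).natAbs : ℕ) : K) := by
        conv_lhs => rw [h]
        rw [Int.cast_neg, Int.cast_natCast]
      rw [e, map_neg_eq_map]
      exact h2
  have hex : ∀ t : Fin q × Fin q, ∃ A : ℝ, 0 ≤ A ∧ (t.1 ≠ t.2 →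
      ∀ (K : Type) [Field K] [NumberField K] (X Y : ℝ) (E : Finset K) (V : K → Finset (Pr K)),
      0 ≤ X → 0 ≤ Y →
      (∀ x ∈ E, x ≠ (a t.1 : K) ∧ x ≠ (a t.2 : K) ∧ ht x ≤ X ∧
        (∀ v, fv v (m : K) = 1 → (nr (a t.1) x v ∨ nr (a t.2) x v) → v ∈ V x) ∧
        RR (V x) (a t.1) x + RR (V x) (a t.2) x ≤ Y) →
        (E.card : ℝ) ≤ Real.exp (Module.finrank ℚ K * A + Y + ε * X)) := by
    intro t
    by_cases ht : t.1 = t.2
    · exact ⟨0, le_rfl, fun h => absurd ht h⟩
    · obtain ⟨A, hA, h⟩ := pair_near (fun h' => ht (ha h')) hm0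
        (fun K _ _ v hv => hmd t.1 t.2 ht K v hv) hε
      exact ⟨A, hA, fun _ => h⟩
  choose A hA h using hex
  set A0 := ∑ t, A t with hA0
  have hA00 : 0 ≤ A0 := Finset.sum_nonneg fun t _ => hA t
  have hAle : ∀ t, A t ≤ A0 := fun t =>
    Finset.single_le_sum (f := A) (fun t _ => hA t) (Finset.mem_univ t)
  have hq0 : (0 : ℝ) < q := by
    have : 0 < q := by omega
    exact_mod_cast this
  have hlq : 0 ≤ Real.log ((q : ℝ) ^ 2) := by
    apply Real.log_nonneg
    have : (1 : ℝ) ≤ q := by exact_mod_cast (by omega : 1 ≤ q)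
    nlinarith
  refine ⟨A0 + Real.log ((q : ℝ) ^ 2), by positivity, ?_⟩
  intro K _ _ X Y E hE
  set n := Module.finrank ℚ K with hn
  have hn1 := finrank_one_le K
  rcases E.eq_empty_or_nonempty with rfl | ⟨x0, hx0⟩
  · rw [Finset.card_empty, Nat.cast_zero]
    exact (Real.exp_pos _).le
  have hX : 0 ≤ X := (ht_nonneg x0).trans (hE x0 hx0).2.1
  have hY : 0 ≤ Y := (cn_nonneg m₀ (hE x0 hx0).1).trans (hE x0 hx0).2.2
  set V : K → Finset (Pr K) := fun x =>
    if hx : ∀ j, x ≠ (a j : K) then (nearSet_finite m hx).toFinset else ∅ with hV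
  have hVx : ∀ (x : K) (hx : x ∈ E), V x = (nearSet_finite m (hE x hx).1).toFinset := by
    intro x hx
    rw [hV]
    simp only
    rw [dif_pos (hE x hx).1]
  have hmem : ∀ x ∈ E, ∀ v, v ∈ V x ↔ v ∈ nearSet m a x := by
    intro x hx v
    rw [hVx x hx, Set.Finite.mem_toFinset]
  set R : K → Fin q → ℝ := fun x j => RR (V x) (a j) x with hR
  have hsum : ∀ x ∈ E, ∑ j, R x j ≤ Y := by
    intro x hx
    have h1 : ∑ j, R x j = ∑ v ∈ V x, ∑ j, if nr (a j) x v then Real.log (Nv v) else 0 := by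
      rw [Finset.sum_comm]
      refine Finset.sum_congr rfl fun j _ => ?_
      rw [hR]
      simp only
      unfold RR
      rw [Finset.sum_filter]
    have h2 : ∀ v ∈ V x, (∑ j, if nr (a j) x v then Real.log (Nv v) else 0) ≤
        Real.log (Nv v) := by
      intro v hv
      obtain ⟨h3, j0, hj0⟩ := (hmem x hx v).1 hv
      rw [Finset.sum_eq_single j0]
      · rw [if_pos hj0]
      · intro j _ hj
        rw [if_neg]
        intro hj1
        exact not_both v (hmd j j0 hj K v h3) hj1 hj0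
      · intro hcon
        exact absurd (Finset.mem_univ _) hcon
    rw [h1]
    refine (Finset.sum_le_sum h2).trans ?_
    rw [hVx x hx, ← cn_eq m (hE x hx).1]
    exact (cn_mono (Dvd.intro _ rfl) (hE x hx).1).trans (hE x hx).2.2
  have hcov : E ⊆ (Finset.univ : Finset (Fin q × Fin q)).biUnion fun t =>
      E.filter fun x => t.1 ≠ t.2 ∧ R x t.1 + R x t.2 ≤ 2 / q * Y := by
    intro x hx
    obtain ⟨i, j, hij, hle⟩ := two_small hq (R x)
    refine Finset.mem_biUnion.2 ⟨(i, j), Finset.mem_univ _, Finset.mem_filter.2 ⟨hx, hij, ?_⟩⟩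
    refine hle.trans (mul_le_mul_of_nonneg_left (hsum x hx) (by positivity))
  have h0 : (E.card : ℝ) ≤ ∑ t : Fin q × Fin q,
      ((E.filter fun x => t.1 ≠ t.2 ∧ R x t.1 + R x t.2 ≤ 2 / q * Y).card : ℝ) := by
    have := (Finset.card_le_card hcov).trans Finset.card_biUnion_le
    exact_mod_cast this
  have hb : ∀ t : Fin q × Fin q,
      ((E.filter fun x => t.1 ≠ t.2 ∧ R x t.1 + R x t.2 ≤ 2 / q * Y).card : ℝ) ≤
      Real.exp (n * A0 + 2 / q * Y + ε * X) := by
    intro t
    by_cases ht : t.1 = t.2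
    · have : (E.filter fun x => t.1 ≠ t.2 ∧ R x t.1 + R x t.2 ≤ 2 / q * Y) = ∅ := by
        refine Finset.filter_eq_empty_iff.2 fun x _ hx => hx.1 ht
      rw [this, Finset.card_empty, Nat.cast_zero]
      exact (Real.exp_pos _).le
    · refine (h t ht K X (2 / q * Y) _ V hX (by positivity) ?_).trans ?_
      · intro x hx
        obtain ⟨hxE, -, hxR⟩ := Finset.mem_filter.1 hx
        refine ⟨(hE x hxE).1 _, (hE x hxE).1 _, (hE x hxE).2.1, ?_, ?_⟩
        · intro v hv hnr
          rw [hmem x hxE]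
          rcases hnr with hnr | hnr
          · exact ⟨hv, t.1, hnr⟩
          · exact ⟨hv, t.2, hnr⟩
        · exact hxR
      · apply Real.exp_le_exp.2
        have := mul_le_mul_of_nonneg_left (hAle t) (Nat.cast_nonneg (α := ℝ) n)
        linarith
  refine h0.trans ((Finset.sum_le_sum fun t _ => hb t).trans ?_)
  rw [Finset.sum_const, Finset.card_univ, Fintype.card_prod, Fintype.card_fin, nsmul_eq_mul]
  have h3 : ((q * q : ℕ) : ℝ) ≤ Real.exp (n * Real.log ((q : ℝ) ^ 2)) := by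
    have h4 : Real.exp (Real.log ((q : ℝ) ^ 2)) = (q : ℝ) ^ 2 := Real.exp_log (by positivity)
    calc ((q * q : ℕ) : ℝ) = Real.exp (Real.log ((q : ℝ) ^ 2)) := by
          rw [h4]
          push_cast
          ring
      _ ≤ _ := Real.exp_le_exp.2 (by nlinarith)
  calc ((q * q : ℕ) : ℝ) * Real.exp (n * A0 + 2 / q * Y + ε * X)
      ≤ Real.exp (n * Real.log ((q : ℝ) ^ 2)) * Real.exp (n * A0 + 2 / q * Y + ε * X) :=
        mul_le_mul_of_nonneg_right h3 (Real.exp_pos _).le
    _ = _ := by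
        rw [← Real.exp_add]
        congr 1
        ring

end Pool.Agent.Y733.VH
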